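import Mathlib
import Pool.Graph.R_pool_sql_team_seeded_47a924f7.T6.H55.JHSpace

/-!
# MP_5bf80f_an: Hamming-Lipschitz maps into a non-quasi-reflexive space concentrate

The James space `J(H)` over an infinite-dimensional Hilbert space `H` is not quasi-reflexive, and
every map of `[M]^K` (`M ⊆ ℕ` infinite) into it which is `L`-Lipschitz for the Hamming distance
has two disjoint tuples whose images are at distance at most `9 L K^(3/4)`. The space and the
lemma `concentration` (of an earlier run, module JHSpace) are imported.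
-/

set_option autoImplicit false

namespace Pool.Agent.Results.MP_5bf80f_an.Concentration

open Pool.Agent.T6.H55.JH

theorem conc {H : Type} [NormedAddCommGroup H] [InnerProductSpace ℝ H] [CompleteSpace H]
    (K : ℕ) (f : (Fin K → ℕ) → JX H) (L : ℝ) (hL : 0 ≤ L)
    (hf : ∀ x y : Fin K → ℕ, StrictMono x → StrictMono y →
      ‖f x - f y‖ ≤ L * (hammingDist x y : ℝ)) :
    ∃ x y : Fin K → ℕ, StrictMono x ∧ StrictMono y ∧ (∀ i j, x i ≠ y j) ∧
      ‖f x - f y‖ ≤ 9 * L * (K : ℝ) ^ (3 / 4 : ℝ) := by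
  rcases Nat.eq_zero_or_pos K with rfl | hK
  · refine ⟨fun i => i.elim0, fun i => i.elim0, fun i => i.elim0, fun i => i.elim0,
      fun i => i.elim0, ?_⟩
    rw [sub_self, norm_zero]
    positivity
  rcases hL.eq_or_lt with rfl | hL
  · refine ⟨fun i => i.val, fun i => K + i.val, fun i j h => h, fun i j h => by
      have : i.val < j.val := h
      show K + i.val < K + j.val
      omega, fun i j h => by
      have := i.2
      have h' : i.val = K + j.val := h
      omega, ?_⟩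
    have := hf (fun i => i.val) (fun i => K + i.val) (fun i j h => h) (fun i j h => by
      have : i.val < j.val := h
      show K + i.val < K + j.val
      omega)
    rw [zero_mul] at this
    simpa using this
  obtain ⟨x, y, hx, hy, hxy, hle⟩ := concentration K (fun x => L⁻¹ • f x) 1 le_rfl
    fun x y hx hy => by
      rw [← smul_sub, norm_smul, norm_inv, Real.norm_of_nonneg hL.le, inv_mul_le_iff₀ hL, one_mul]
      exact hf x y hx hy
  refine ⟨x, y, hx, hy, hxy, ?_⟩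
  rw [← smul_sub, norm_smul, norm_inv, Real.norm_of_nonneg hL.le] at hle
  have hK1 : (1 : ℝ) ≤ K := by exact_mod_cast hK
  have hK0 : (0 : ℝ) < K := by linarith
  set s : ℝ := √K with hs
  have hs2 : s ^ 2 = K := Real.sq_sqrt hK0.le
  have hs1 : 1 ≤ s := Real.one_le_sqrt.2 hK1
  have hsq : √(18 * 1 ^ 2 + 10 * 1 ^ 2 * (K : ℝ)) ≤ 5.3 * s := by
    refine Real.sqrt_le_iff.2 ⟨by positivity, ?_⟩
    rw [mul_pow, hs2]
    nlinarith
  have hpow : ((K : ℝ) ^ (3 / 4 : ℝ)) ^ 2 = K * s := by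
    rw [← Real.rpow_natCast, ← Real.rpow_mul hK0.le, hs, Real.sqrt_eq_rpow]
    nth_rewrite 2 [← Real.rpow_one (K : ℝ)]
    rw [← Real.rpow_add hK0]
    norm_num
  have hmain : (L⁻¹ * ‖f x - f y‖) ^ 2 ≤ (9 * (K : ℝ) ^ (3 / 4 : ℝ)) ^ 2 := by
    refine hle.trans ?_
    rw [mul_pow, hpow]
    have h1 : (K : ℝ) * (5 * 1 ^ 2 + 8 * 1 * √(18 * 1 ^ 2 + 10 * 1 ^ 2 * (K : ℝ))) ≤
        K * (5 + 8 * (5.3 * s)) := by
      refine mul_le_mul_of_nonneg_left ?_ hK0.le
      linarith
    have h2 : (K : ℝ) ≤ K * s := le_mul_of_one_le_right hK0.le hs1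
    have h3 : (K : ℝ) * (5 + 8 * (5.3 * s)) = 5 * K + 42.4 * (K * s) := by ring
    rw [h3] at h1
    generalize (K : ℝ) * (5 * 1 ^ 2 + 8 * 1 * √(18 * 1 ^ 2 + 10 * 1 ^ 2 * (K : ℝ))) = u at h1 ⊢
    linarith
  have h3 : L⁻¹ * ‖f x - f y‖ ≤ 9 * (K : ℝ) ^ (3 / 4 : ℝ) :=
    le_of_sq_le_sq hmain (by positivity)
  rw [inv_mul_le_iff₀ hL] at h3
  linarith

/-- `X` is not quasi-reflexive: no finite set spans `X**` together with the image of `X` -/
def NotQuasiReflexive (X : Type) [NormedAddCommGroup X] [NormedSpace ℝ X] : Prop :=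
  ∀ s : Finset ((X →L[ℝ] ℝ) →L[ℝ] ℝ), ∃ φ : (X →L[ℝ] ℝ) →L[ℝ] ℝ,
    φ ∉ Submodule.span ℝ ((↑s : Set ((X →L[ℝ] ℝ) →L[ℝ] ℝ)) ∪
      {ψ : (X →L[ℝ] ℝ) →L[ℝ] ℝ | ∃ x : X, ∀ g : X →L[ℝ] ℝ, ψ g = g x})

/-- the strictly increasing `K`-tuples with entries in `M` -/
def Tup (K : ℕ) (M : Set ℕ) : Set (Fin K → ℕ) := {x | StrictMono x ∧ ∀ i, x i ∈ M}

/-- `f` is `L`-Lipschitz on `Tup K M` for the Hamming distance -/
def HammingLip {X : Type} [NormedAddCommGroup X] (K : ℕ) (M : Set ℕ) (L : ℝ)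
    (f : (Fin K → ℕ) → X) : Prop :=
  ∀ x ∈ Tup K M, ∀ y ∈ Tup K M, ‖f x - f y‖ ≤ L * (hammingDist x y : ℝ)

/-- the cardinality of the symmetric difference of the sets of the first `k` entries -/
def dDelta {K : ℕ} (k : ℕ) (x y : Fin K → ℕ) : ℕ :=
  (symmDiff ((Finset.univ.filter (fun i : Fin K => i.val < k)).image x)
    ((Finset.univ.filter (fun i : Fin K => i.val < k)).image y)).card

/-- **Main theorem.** There is a Banach space `X` of infinite codimension in its bidual such that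
(1) for all `K`, infinite `M ⊆ ℕ` and `L ≥ 0`, each map `f` of the increasing `K`-tuples from `M`
into `X` which is `L`-Lipschitz for the Hamming distance has two tuples `x`, `y` without common entry
and `‖f x - f y‖ ≤ 9 L K^(3/4)`;
(2) if for some `k`, `ℓ ≥ 1`, `L ≥ 0` and `ω : ℕ → ℝ` there is `f : [ℕ]^(ℓ k) → X` with
`ω (d_Δ) ≤ ‖f x - f y‖ ≤ L d_H`, where `d_Δ` is the cardinality of the symmetric difference of the
sets of the first `k` entries of `x` and `y`, then `ω (2 k) ≤ 9 L (ℓ k)^(3/4)`. -/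
theorem result : ∃ (X : Type) (_ : NormedAddCommGroup X) (_ : NormedSpace ℝ X)
    (_ : CompleteSpace X), NotQuasiReflexive X ∧
    (∀ (K : ℕ) (M : Set ℕ) (L : ℝ), M.Infinite → 0 ≤ L → ∀ f : (Fin K → ℕ) → X,
      HammingLip K M L f → ∃ x ∈ Tup K M, ∃ y ∈ Tup K M,
        (∀ i j, x i ≠ y j) ∧ ‖f x - f y‖ ≤ 9 * L * (K : ℝ) ^ (3 / 4 : ℝ)) ∧
    ∀ (k ℓ : ℕ) (L : ℝ) (ω : ℕ → ℝ), 1 ≤ ℓ → 0 ≤ L →
      (∃ f : (Fin (ℓ * k) → ℕ) → X, HammingLip (ℓ * k) Set.univ L f ∧
        ∀ x ∈ Tup (ℓ * k) Set.univ, ∀ y ∈ Tup (ℓ * k) Set.univ,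
          ω (dDelta k x y) ≤ ‖f x - f y‖) →
      ω (2 * k) ≤ 9 * L * ((ℓ * k : ℕ) : ℝ) ^ (3 / 4 : ℝ) := by
  obtain ⟨e, he⟩ := exists_orthonormal
  refine ⟨JX HH, inferInstance, inferInstance, inferInstance, not_quasireflexive e he,
    fun K M L hM hL f hf => ?_, fun k ℓ L ω hℓ hL hf => ?_⟩
  · have hmono : StrictMono (Nat.nth (· ∈ M)) := Nat.nth_strictMono hM
    have hmem : ∀ n, Nat.nth (· ∈ M) n ∈ M := fun n => Nat.nth_mem_of_infinite hM n
    obtain ⟨x, y, hx, hy, hxy, hle⟩ := conc K (fun x => f fun i => Nat.nth (· ∈ M) (x i)) L hL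
      fun x y hx hy => by
        have := hf (fun i => Nat.nth (· ∈ M) (x i)) ⟨hmono.comp hx, fun i => hmem _⟩
          (fun i => Nat.nth (· ∈ M) (y i)) ⟨hmono.comp hy, fun i => hmem _⟩
        rwa [hammingDist_comp (fun _ => Nat.nth (· ∈ M)) (fun _ => hmono.injective)] at this
    exact ⟨_, ⟨hmono.comp hx, fun i => hmem _⟩, _, ⟨hmono.comp hy, fun i => hmem _⟩,
      fun i j h => hxy i j (hmono.injective h), hle⟩
  · obtain ⟨f, hf, hlow⟩ := hf
    obtain ⟨x, y, hx, hy, hxy, hle⟩ := conc (ℓ * k) f L hL fun x y hx hy =>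
      hf x ⟨hx, fun _ => trivial⟩ y ⟨hy, fun _ => trivial⟩
    have hlow := hlow x ⟨hx, fun _ => trivial⟩ y ⟨hy, fun _ => trivial⟩
    unfold dDelta at hlow
    set s : Finset (Fin (ℓ * k)) := Finset.univ.filter (fun i => i.val < k) with hs
    have hscard : s.card = k := by
      have h1 : s.image Fin.val = Finset.range k := by
        ext m
        rw [Finset.mem_image, Finset.mem_range]
        constructor
        · rintro ⟨i, hi, rfl⟩
          exact (Finset.mem_filter.1 hi).2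
        · intro hm
          refine ⟨⟨m, lt_of_lt_of_le hm (Nat.le_mul_of_pos_left _ hℓ)⟩, ?_, rfl⟩
          exact Finset.mem_filter.2 ⟨Finset.mem_univ _, hm⟩
      rw [← Finset.card_image_of_injective s Fin.val_injective, h1, Finset.card_range]
    have hdis : Disjoint (s.image x) (s.image y) := by
      rw [Finset.disjoint_left]
      intro a ha hb
      obtain ⟨i, -, rfl⟩ := Finset.mem_image.1 ha
      obtain ⟨j, -, hj⟩ := Finset.mem_image.1 hb
      exact hxy i j hj.symm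
    rw [hdis.symmDiff_eq_sup, Finset.sup_eq_union, Finset.card_union_of_disjoint hdis,
      Finset.card_image_of_injective s hx.injective, Finset.card_image_of_injective s hy.injective,
      hscard, ← two_mul] at hlow
    exact hlow.trans hle

end Pool.Agent.Results.MP_5bf80f_an.Concentration
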